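import Pool.Agent.Y955.VL.XN2
import Pool.Agent.Y5.V.Stm3

/-! VL-XN2S: the perturbations of the chain, general exponent (after Y955.VL.XN2 of helper955). -/

open Set Filter Topology
open scoped ComplexConjugate

set_option autoImplicit false

namespace Pool.Agent.Y769.VL.XN2S

open Pool.Agent.Y5.V
open Pool.Agent.Y6.M (Z3 C3 Coef nsq len IsField energy)
open Pool.Agent.Y5.D (pair bil vec Fam)
open Pool.Agent.Y6.K (Em Ac cvf Chain S_CJ1 S_CJ2)
open Pool.Agent.Y955.VL.XN2 (decay)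

theorem t_XN2S : S_XN2S := by
  classical
  intro hLEV h3 h4 s hs0 hs1
  obtain ⟨C, hC, h4⟩ := h4 s hs0 hs1
  refine ⟨C, hC, fun V hV hS hE n => ?_⟩
  obtain ⟨hOT, hRap, -, hsq, hlev, -⟩ := hLEV V hV hS
  have h5 : ∑' k, ‖wOf V k‖ ^ 2 ≤ 1 := by
    have : ∑' k, ‖wOf V k‖ ^ 2 = energy V := tsum_congr fun k => hsq k
    rw [this]
    exact hE
  have h6 := h4 (wOf V) (xc V) hOT hRap h5 hlev n
  rw [h3 (xc V) (decay Pool.Agent.Y809.EK.t_CJ1
    (Pool.Agent.Y978.EK.t_CJ2 Pool.Agent.Y809.EK.t_CJ1) (wOf V) (xc V) hRap hlev) n] at h6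
  have h7 : (∑' k, if lac (nsq k) then 0 else (nsq k : ℝ) ^ s * ‖wOf V k‖ ^ 2) = eos s V := by
    unfold eos
    exact tsum_congr fun k => by rw [hsq k]
  rw [← h7]
  exact h6

end Pool.Agent.Y769.VL.XN2S
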